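import Pool.Agent.H98.GI.FiveMain
import Pool.Agent.H98.GI.Half

/-!
# Prime `(K_4, S_{1,1,3})`-free graphs with two vertices at distance `5`

Definitions: `Pool/Agent/H98/GI/Basic.lean` (`S113` the subdivided claw `S_{1,1,3}`, `S113Free G`: no induced subgraph of `G` is
isomorphic to it), `Pool/Agent/H98/GI/Prime.lean` (`IsModule G M`: every vertex outside `M` is adjacent to all or to none of the
vertices of `M`; `Prime G`: every module has at most one vertex or is the set of all vertices).
-/

set_option autoImplicit false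

universe u

namespace Pool.Agent.Results.MP_9c2a19_lc.DiameterFive

open Pool.Agent.H98.GI

/-- (1) In a prime connected `(K_4, S_{1,1,3})`-free graph with two vertices `x`, `y` at distance `5` there are at most `102`
vertices with distance at most `2` from `x` or from `y`, and all the other vertices have degree at most `2 ^ 501`.
(2) For every `m` there is a finite prime connected `(K_4, S_{1,1,3})`-free graph with two vertices at distance `4` and with at
least `m` vertices of degree at least `m`. -/
theorem result :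
    (∀ (V : Type u) (G : SimpleGraph V), G.Connected → S113Free G → G.CliqueFree 4 → Prime G →
      ∀ x y : V, G.dist x y = 5 → {w | G.dist x w ≤ 2 ∨ G.dist y w ≤ 2}.encard ≤ 102 ∧
        ∀ v, 2 < G.dist x v → 2 < G.dist y v → (G.neighborSet v).encard ≤ 2 ^ 501) ∧
    ∀ m : ℕ, ∃ (W : Type) (_ : Finite W) (G : SimpleGraph W), G.Connected ∧ S113Free G ∧ G.CliqueFree 4 ∧ Prime G ∧
      (∃ x y, G.dist x y = 4) ∧ ∃ S : Finset W, S.card = m ∧ ∀ v ∈ S, (m : ℕ∞) ≤ (G.neighborSet v).encard := by
  refine ⟨fun V G hG hS hK hP x y hxy => ?_, fun m => ?_⟩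
  · obtain ⟨H, h1, h2, h3⟩ := five hG hS hK hP hxy
    refine ⟨?_, fun v hx hy => (h3 v hx hy).trans ?_⟩
    · refine (Set.encard_le_encard (fun w hw => h2 w hw : {w | G.dist x w ≤ 2 ∨ G.dist y w ≤ 2} ⊆ (H : Set V))).trans ?_
      rw [Set.encard_coe_eq_coe_finsetCard]
      exact_mod_cast h1
    · have h4 : (2 ^ 250) * (2 ^ 250 + 1) ≤ (2 : ℕ) ^ 501 := by
        have h5 : (2 : ℕ) ^ (250 + 251) = 2 ^ 250 * 2 ^ 251 := pow_add 2 250 251
        have h6 : 250 + 251 = 501 := by norm_num
        rw [h6] at h5
        rw [h5]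
        exact Nat.mul_le_mul_left _ (by norm_num)
      exact_mod_cast h4
  · exact ⟨_, inferInstance, Half.H (2 * m + 1), Half.conn (2 * m), Half.SF _, Half.clique _, Half.prime (2 * m),
      ⟨_, _, Half.dist4 (2 * m)⟩, Half.many m⟩

end Pool.Agent.Results.MP_9c2a19_lc.DiameterFive
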