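import Pool.Agent.H98.GI.Sharp

/-!
# Connected `(K_4, S_{1,1,3})`-free graphs: diameter at most `6` or degrees at most `5`

Definitions (`Pool/Agent/H98/GI/Basic.lean`): `S113` the subdivided claw `S_{1,1,3}`, `S113Free G`: no induced subgraph of `G`
is isomorphic to it, `Claw G v a b c`: `a`, `b`, `c` are distinct pairwise non-adjacent neighbours of `v`.
-/

set_option autoImplicit false

universe u

namespace Pool.Agent.Results.MP_9c2a19_lc.LongDiameter

open Pool.Agent.H98.GI

/-- (1) In a connected `S_{1,1,3}`-free graph the centre of a claw has distance at most `4` from every vertex, and if there is a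
claw then all distances are at most `6`.
(2) A connected `(K_4, S_{1,1,3})`-free graph either has a claw and then all distances are at most `6`, or it has no claw and
then all degrees are at most `5`.
(3) For every `m` there is a finite connected `(K_4, S_{1,1,3})`-free graph with two vertices at distance `6` and a vertex of
degree at least `m`. -/
theorem result :
    (∀ (V : Type u) (G : SimpleGraph V), G.Connected → S113Free G → ∀ v a b c, Claw G v a b c →
      (∀ x, G.dist v x ≤ 4) ∧ ∀ x y, G.dist x y ≤ 6) ∧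
    (∀ (V : Type u) (G : SimpleGraph V), G.Connected → S113Free G → G.CliqueFree 4 →
      ((∃ v a b c, Claw G v a b c) ∧ ∀ x y, G.dist x y ≤ 6) ∨
      ((∀ v a b c, ¬ Claw G v a b c) ∧ ∀ v, (G.neighborSet v).encard ≤ 5)) ∧
    ∀ m : ℕ, ∃ (W : Type) (_ : Finite W) (G : SimpleGraph W), G.Connected ∧ S113Free G ∧ G.CliqueFree 4 ∧
      (∃ x y, G.dist x y = 6) ∧ ∃ v, (m : ℕ∞) ≤ (G.neighborSet v).encard := by
  refine ⟨fun V G hG hS v a b c h => ⟨ecc hG hS h, diam hG hS h⟩, fun V G hG hS hK => ?_, fun m => ?_⟩
  · by_cases h1 : ∃ v a b c, Claw G v a b c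
    · obtain ⟨v, a, b, c, h⟩ := h1
      exact Or.inl ⟨⟨v, a, b, c, h⟩, diam hG hS h⟩
    · have h2 : ∀ v a b c, ¬ Claw G v a b c := fun v a b c h => h1 ⟨v, a, b, c, h⟩
      exact Or.inr ⟨h2, fun v => deg hK v (h2 v)⟩
  · exact ⟨_, inferInstance, H m, H_conn m, H_S m, H_clique m, ⟨_, _, H_dist m⟩, _, H_deg m⟩

end Pool.Agent.Results.MP_9c2a19_lc.LongDiameter
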