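import Pool.Agent.H98.GI.Books
import Pool.Agent.H98.KT.Main

/-!
# `(K_4, S_{1,1,3})`-free graphs without an induced `K_{t,t}`

Definitions: `Pool/Agent/H98/GI/Basic.lean` (`S113` the subdivided claw `S_{1,1,3}`, `S113Free G`: no induced subgraph of `G` is
isomorphic to it) and `Pool/Agent/H98/KT/Def.lean` (`Elim G c d n S`: elimination of `G[S]` in `n` rounds, each of which removes at
most `c` vertices from each component, down to vertices of degree at most `d` in `G`).
`completeBipartiteGraph (Fin a) (Fin b) ↪g G` (Mathlib): the induced subgraphs `K_{a,b}` of `G`; `K_{2,2}` is the cycle of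
length `4`. `G.induce Hᶜ` is `G - H`.
-/

set_option autoImplicit false

universe u

namespace Pool.Agent.Results.MP_9c2a19_lc.NoBicliques

open Pool.Agent.H98.GI Pool.Agent.H98.KT

/-- (1) For every `t ≥ 1` there are `c`, `d`, `n` such that every graph `G` without `K_4`, induced `S_{1,1,3}` and induced `K_{t,t}`
can be brought to vertices of degree at most `d` by `n` rounds, each of which removes at most `c` vertices from each component.
(2) Every connected graph `G` without `K_4`, induced `S_{1,1,3}` and induced `K_{2,t}` has a set `H` of at most `22959`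
vertices such that every component of `G - H` contains at most `3` vertices of degree more than `5 t (5 t + 1)` (in `G`).
(3) For every `m` there is a finite connected graph without `K_4`, induced `S_{1,1,3}` and induced `K_{2,2}` with `m` vertices of
degree at least `m`. -/
theorem result :
    (∀ (t : ℕ), 1 ≤ t → ∃ c d n : ℕ, ∀ (V : Type u) (G : SimpleGraph V), S113Free G → G.CliqueFree 4 →
      ¬ Nonempty (completeBipartiteGraph (Fin t) (Fin t) ↪g G) → Elim G c d n Set.univ) ∧
    (∀ (t : ℕ), 1 ≤ t → ∀ (V : Type u) (G : SimpleGraph V), G.Connected → S113Free G → G.CliqueFree 4 →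
      ¬ Nonempty (completeBipartiteGraph (Fin 2) (Fin t) ↪g G) →
      ∃ H : Set V, H.encard ≤ 22959 ∧ ∀ C : (G.induce Hᶜ).ConnectedComponent,
        {v : ↥(Hᶜ) | v ∈ C.supp ∧ ((5 * t * (5 * t + 1) : ℕ) : ℕ∞) < (G.neighborSet v.1).encard}.encard ≤ 3) ∧
    ∀ m : ℕ, ∃ (W : Type) (_ : Finite W) (G : SimpleGraph W), G.Connected ∧ S113Free G ∧ G.CliqueFree 4 ∧
      ¬ Nonempty (completeBipartiteGraph (Fin 2) (Fin 2) ↪g G) ∧
      ∃ S : Finset W, S.card = m ∧ ∀ v ∈ S, (m : ℕ∞) ≤ (G.neighborSet v).encard :=
  ⟨fun t ht => Pool.Agent.H98.KT.main t ht,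
    fun t ht _ _ hG hS hK hB => bic (K2.of t hB) hS hG hK ht,
    fun m => ⟨_, inferInstance, Books.B m, Books.conn m, Books.SF m, Books.clique m, Books.noC4 m, Books.many m⟩⟩

end Pool.Agent.Results.MP_9c2a19_lc.NoBicliques
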