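import Pool.Agent.H98.GI.PrimeDeg
import Pool.Agent.H98.GI.PrimeSharp

/-!
# Prime `(K_4, S_{1,1,3})`-free graphs: distance `6` implies degrees at most `9`

Definitions: `Pool/Agent/H98/GI/Basic.lean` (`S113` the subdivided claw `S_{1,1,3}`, `S113Free G`: no induced subgraph of `G` is
isomorphic to it), `Pool/Agent/H98/GI/Prime.lean` (`IsModule G M`: every vertex outside `M` is adjacent to all or to none of the
vertices of `M`; `Prime G`: every module has at most one vertex or is the set of all vertices).
-/

set_option autoImplicit false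

universe u

namespace Pool.Agent.Results.MP_9c2a19_lc.PrimeGraphs

open Pool.Agent.H98.GI

/-- (1) A prime connected `(K_4, S_{1,1,3})`-free graph with two vertices at distance at least `6` has all degrees at most `9`.
(2) For every `m` there is a finite prime connected `(K_4, S_{1,1,3})`-free graph with two vertices at distance `5` and a vertex
of degree at least `m`. -/
theorem result :
    (∀ (V : Type u) (G : SimpleGraph V), G.Connected → S113Free G → G.CliqueFree 4 → Prime G →
      (∃ x y, 6 ≤ G.dist x y) → ∀ v, (G.neighborSet v).encard ≤ 9) ∧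
    ∀ m : ℕ, ∃ (W : Type) (_ : Finite W) (G : SimpleGraph W), G.Connected ∧ S113Free G ∧ G.CliqueFree 4 ∧ Prime G ∧
      (∃ x y, G.dist x y = 5) ∧ ∃ v, (m : ℕ∞) ≤ (G.neighborSet v).encard := by
  refine ⟨fun V G hG hS hK hP ⟨x, y, hxy⟩ v => prime_deg hG hS hP hK hxy v, fun m => ?_⟩
  exact ⟨_, inferInstance, K m, K_conn m, K_S m, K_clique m, K_prime m, ⟨_, _, K_dist m⟩, _, K_deg m⟩

end Pool.Agent.Results.MP_9c2a19_lc.PrimeGraphs
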